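import Mathlib

/-!
A matrix of affine linear forms whose determinant vanishes at finitely many points can be changed by
constant unimodular row and column operations so that at all these points there are kernel and
cokernel vectors whose first coordinate is one (library for the determinantal complexity project of
helper59).
-/

set_option autoImplicit false

namespace L5helper62.DC

open MvPolynomial Matrix

/-- finitely many nonzero vectors have nonzero products with one vector `(1, z, z ^ 2, ...)` -/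
lemma exists_z {m : ℕ} (V : Finset (Fin (m + 1) → ℂ)) (hV : ∀ v ∈ V, v ≠ 0) :
    ∃ z : ℂ, ∀ v ∈ V, ∑ j : Fin (m + 1), z ^ (j : ℕ) * v j ≠ 0 := by
  classical
  let P : (Fin (m + 1) → ℂ) → Polynomial ℂ := fun v =>
    ∑ j : Fin (m + 1), Polynomial.C (v j) * Polynomial.X ^ (j : ℕ)
  have hP : ∀ v ∈ V, P v ≠ 0 := by
    intro v hv h0
    apply hV v hv
    funext j
    have h1 : (P v).coeff (j : ℕ) = v j := by
      simp only [P, Polynomial.finsetSum_coeff, Polynomial.coeff_C_mul, Polynomial.coeff_X_pow]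
      rw [Finset.sum_eq_single j]
      · simp
      · intro k _ hk
        have : (j : ℕ) ≠ (k : ℕ) := fun h => hk (Fin.ext h.symm)
        simp [this]
      · simp
    rw [← h1, h0]
    simp
  have hprod : (∏ v ∈ V, P v) ≠ 0 := Finset.prod_ne_zero_iff.mpr hP
  have hex : ∃ z : ℂ, (∏ v ∈ V, P v).eval z ≠ 0 := by
    by_contra hcon
    push Not at hcon
    exact hprod (Polynomial.funext fun z => by simpa using hcon z)
  obtain ⟨z, hz⟩ := hex
  refine ⟨z, fun v hv h => hz ?_⟩
  rw [Polynomial.eval_prod]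
  refine Finset.prod_eq_zero hv ?_
  rw [← h]
  simp only [P, Polynomial.eval_finsetSum, Polynomial.eval_mul, Polynomial.eval_C,
    Polynomial.eval_pow, Polynomial.eval_X]
  exact Finset.sum_congr rfl fun j _ => mul_comm _ _

/-- the identity matrix with first row `(1, z, z ^ 2, ...)` -/
def B (m : ℕ) (z : ℂ) : Matrix (Fin (m + 1)) (Fin (m + 1)) ℂ :=
  (1 : Matrix (Fin (m + 1)) (Fin (m + 1)) ℂ).updateRow 0 fun j => z ^ (j : ℕ)

lemma B_zero (m : ℕ) (z : ℂ) (j : Fin (m + 1)) : B m z 0 j = z ^ (j : ℕ) := by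
  simp [B]

lemma det_B (m : ℕ) (z : ℂ) : (B m z).det = 1 := by
  have h : (B m z).BlockTriangular id := by
    intro i j hij
    simp only [id] at hij
    have hi : i ≠ 0 := by
      rintro rfl
      exact absurd hij (by simp)
    simp only [B]
    rw [Matrix.updateRow_ne hi]
    exact Matrix.one_apply_ne (ne_of_gt hij)
  rw [Matrix.det_of_isUpperTriangular h]
  refine Finset.prod_eq_one fun i _ => ?_
  by_cases hi : i = 0
  · subst hi
    simp [B]
  · simp only [B]
    rw [Matrix.updateRow_ne hi]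
    simp

theorem normalize {ι : Type} {m : ℕ} (A : Matrix (Fin (m + 1)) (Fin (m + 1)) (MvPolynomial ι ℂ))
    (hA : ∀ i j, (A i j).totalDegree ≤ 1) (S : Finset (ι → ℂ)) (hS : ∀ p ∈ S, eval p A.det = 0) :
    ∃ A' : Matrix (Fin (m + 1)) (Fin (m + 1)) (MvPolynomial ι ℂ),
      (∀ i j, (A' i j).totalDegree ≤ 1) ∧ A'.det = A.det ∧
      ∀ p ∈ S, ∃ v u : Fin (m + 1) → ℂ, v 0 = 1 ∧ u 0 = 1 ∧
        (A'.map (eval p)) *ᵥ v = 0 ∧ u ᵥ* (A'.map (eval p)) = 0 := by
  classical
  -- kernel and cokernel vectors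
  have hker : ∀ p ∈ S, ∃ v : Fin (m + 1) → ℂ, v ≠ 0 ∧ (A.map (eval p)) *ᵥ v = 0 := by
    intro p hp
    apply Matrix.exists_mulVec_eq_zero_iff.mpr
    have h := hS p hp
    rw [RingHom.map_det] at h
    exact h
  have hcok : ∀ p ∈ S, ∃ u : Fin (m + 1) → ℂ, u ≠ 0 ∧ u ᵥ* (A.map (eval p)) = 0 := by
    intro p hp
    apply Matrix.exists_vecMul_eq_zero_iff.mpr
    have h := hS p hp
    rw [RingHom.map_det] at h
    exact h
  choose! v hv0 hv using hker
  choose! u hu0 hu using hcok
  obtain ⟨z, hz⟩ := exists_z (S.image v) (by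
    intro w hw
    obtain ⟨p, hp, rfl⟩ := Finset.mem_image.mp hw
    exact hv0 p hp)
  obtain ⟨z', hz'⟩ := exists_z (S.image u) (by
    intro w hw
    obtain ⟨p, hp, rfl⟩ := Finset.mem_image.mp hw
    exact hu0 p hp)
  set P : Matrix (Fin (m + 1)) (Fin (m + 1)) ℂ := (B m z')ᵀ⁻¹ with hPdef
  set Q : Matrix (Fin (m + 1)) (Fin (m + 1)) ℂ := (B m z)⁻¹ with hQdef
  have hdB : IsUnit (B m z).det := by rw [det_B]; exact isUnit_one
  have hdB' : IsUnit ((B m z')ᵀ).det := by rw [Matrix.det_transpose, det_B]; exact isUnit_one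
  have hP1 : (B m z')ᵀ * P = 1 := Matrix.mul_nonsing_inv _ hdB'
  have hQ1 : Q * B m z = 1 := Matrix.nonsing_inv_mul _ hdB
  have hdP : P.det = 1 := by
    have h := congrArg Matrix.det hP1
    rwa [Matrix.det_mul, Matrix.det_transpose, det_B, one_mul, Matrix.det_one] at h
  have hdQ : Q.det = 1 := by
    have h := congrArg Matrix.det hQ1
    rwa [Matrix.det_mul, det_B, mul_one, Matrix.det_one] at h
  refine ⟨P.map C * A * Q.map C, ?_, ?_, ?_⟩
  · intro i j
    rw [← mem_restrictTotalDegree]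
    rw [Matrix.mul_apply]
    refine Submodule.sum_mem _ fun k _ => ?_
    rw [Matrix.mul_apply, Matrix.map_apply, mul_comm, ← MvPolynomial.smul_eq_C_mul]
    refine Submodule.smul_mem _ _ (Submodule.sum_mem _ fun l _ => ?_)
    rw [Matrix.map_apply, ← MvPolynomial.smul_eq_C_mul]
    exact Submodule.smul_mem _ _ ((mem_restrictTotalDegree _ _ _).mpr (hA l k))
  · have hC : ∀ M : Matrix (Fin (m + 1)) (Fin (m + 1)) ℂ,
        (M.map (C : ℂ →+* MvPolynomial ι ℂ)).det = C M.det := by
      intro M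
      rw [RingHom.map_det]
      rfl
    rw [Matrix.det_mul, Matrix.det_mul, hC, hC, hdP, hdQ]
    simp
  · intro p hp
    have hmap : (P.map C * A * Q.map C).map (eval p) = P * A.map (eval p) * Q := by
      rw [Matrix.map_mul, Matrix.map_mul]
      congr 1
      · congr 1
        ext i j
        simp
      · ext i j
        simp
    rw [hmap]
    have hv1 : (B m z *ᵥ v p) 0 ≠ 0 := by
      have h := hz (v p) (Finset.mem_image_of_mem v hp)
      simpa [Matrix.mulVec, dotProduct, B_zero] using h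
    have hu1 : (u p ᵥ* (B m z')ᵀ) 0 ≠ 0 := by
      have h := hz' (u p) (Finset.mem_image_of_mem u hp)
      rw [Matrix.vecMul_transpose]
      simpa [Matrix.mulVec, dotProduct, B_zero] using h
    refine ⟨((B m z *ᵥ v p) 0)⁻¹ • (B m z *ᵥ v p),
      ((u p ᵥ* (B m z')ᵀ) 0)⁻¹ • (u p ᵥ* (B m z')ᵀ), ?_, ?_, ?_, ?_⟩
    · rw [Pi.smul_apply, smul_eq_mul, inv_mul_cancel₀ hv1]
    · rw [Pi.smul_apply, smul_eq_mul, inv_mul_cancel₀ hu1]
    · rw [Matrix.mulVec_smul, ← Matrix.mulVec_mulVec, ← Matrix.mulVec_mulVec,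
        Matrix.mulVec_mulVec (v := v p) (M := Q), hQ1, Matrix.one_mulVec, hv p hp,
        Matrix.mulVec_zero, smul_zero]
    · rw [Matrix.smul_vecMul, Matrix.mul_assoc, ← Matrix.vecMul_vecMul,
        Matrix.vecMul_vecMul (v := u p), hP1, Matrix.vecMul_one, ← Matrix.vecMul_vecMul, hu p hp,
        Matrix.zero_vecMul, smul_zero]

end L5helper62.DC
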