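import Pool.Agent.L5helper62.DC.Lin

/-!
# The determinant of a matrix of affine linear forms at a zero of order three
-/

set_option autoImplicit false

namespace Pool.Agent.L5helper62.DC

open Finset Module Polynomial

section

variable {ν : Type*} [Fintype ν] [DecidableEq ν]

theorem det_scale {R : Type*} [CommRing R] (M N : Matrix ν ν R) (e e' : ν → R)
    (h : ∀ i j, M i j = e i * N i j * e' j) : M.det = (∏ i, e i) * N.det * ∏ i, e' i := by
  have : M = Matrix.diagonal e * N * Matrix.diagonal e' := by
    ext i j
    rw [Matrix.mul_diagonal, Matrix.diagonal_mul, h]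
  rw [this, Matrix.det_mul, Matrix.det_mul, Matrix.det_diagonal, Matrix.det_diagonal]

variable {K : Type*} [Field K]

/-- the bordered diagonal matrix -/
def bord (D : ν → K) (o : ν) (N : Matrix ν ν K) : Matrix ν ν K := fun i j =>
  if i = o then (if j = o then 0 else N o j) else if j = o then N i o else if i = j then D i else 0

theorem bord_det (D : ν → K) (o : ν) (N : Matrix ν ν K) (hD : ∀ i, i ≠ o → D i ≠ 0)
    (h : (bord D o N).det = 0) : ∑ i : {i // i ≠ o}, N o i * (N i o / D i) = 0 := by
  obtain ⟨x, hx, hx0⟩ := Matrix.exists_mulVec_eq_zero_iff.2 h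
  have h1 : ∀ i, i ≠ o → N i o * x o + D i * x i = 0 := by
    intro i hi
    have := congrFun hx0 i
    rw [Matrix.mulVec, dotProduct, ← add_sum_erase univ _ (mem_univ o),
      ← add_sum_erase _ _ (mem_erase.2 ⟨hi, mem_univ i⟩), sum_eq_zero] at this
    · simpa [bord, hi] using this
    · intro j hj
      rw [mem_erase, mem_erase] at hj
      simp [bord, hi, hj.2.1, hj.1.symm]
  have hxo : x o ≠ 0 := by
    intro hxo
    apply hx
    funext i
    by_cases hi : i = o
    · rw [hi, hxo]; rfl
    · have := h1 i hi
      rw [hxo, mul_zero, zero_add] at this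
      exact (mul_eq_zero.1 this).resolve_left (hD i hi)
  have h2 := congrFun hx0 o
  rw [Matrix.mulVec, dotProduct, ← add_sum_erase univ _ (mem_univ o)] at h2
  have h3 : ∀ i ∈ univ.erase o, bord D o N o i * x i = - x o * (N o i * (N i o / D i)) := by
    intro i hi
    rw [mem_erase] at hi
    have e := h1 i hi.1
    have hDi := hD i hi.1
    have : x i = - (N i o * x o) / D i := by
      rw [eq_div_iff hDi]
      linear_combination e
    simp only [bord, if_pos, if_neg hi.1]
    rw [this]
    field_simp
  have h4 : bord D o N o o = 0 := by simp [bord]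
  rw [h4, zero_mul, zero_add, sum_congr rfl h3, ← mul_sum] at h2
  have h5 : ∑ i ∈ univ.erase o, N o i * (N i o / D i) = 0 := by
    have h6 : - x o ≠ 0 := neg_ne_zero.2 hxo
    exact (mul_eq_zero.1 h2).resolve_left h6
  rw [← h5]
  symm
  refine sum_subtype (univ.erase o) (fun i => by simp) _

/-- a matrix which is diagonal outside the row `o` -/
theorem row_det (D : ν → K) (o : ν) (N : Matrix ν ν K) (hD : ∀ i, i ≠ o → D i ≠ 0)
    (hN : ∀ i j, i ≠ o → N i j = if i = j then D i else 0) (h : N.det = 0) : N o o = 0 := by
  obtain ⟨x, hx, hx0⟩ := Matrix.exists_mulVec_eq_zero_iff.2 h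
  have h1 : ∀ i, i ≠ o → x i = 0 := by
    intro i hi
    have := congrFun hx0 i
    rw [Matrix.mulVec, dotProduct] at this
    simp only [hN i _ hi, ite_mul, zero_mul, sum_ite_eq, mem_univ, if_true, Pi.zero_apply] at this
    exact (mul_eq_zero.1 this).resolve_left (hD i hi)
  have hxo : x o ≠ 0 := by
    intro hxo
    apply hx
    funext i
    by_cases hi : i = o
    · rw [hi, hxo]; rfl
    · exact h1 i hi
  have h2 := congrFun hx0 o
  rw [Matrix.mulVec, dotProduct, ← add_sum_erase univ _ (mem_univ o), sum_eq_zero, add_zero] at h2
  · exact (mul_eq_zero.1 h2).resolve_right hxo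
  · intro i hi
    rw [mem_erase] at hi
    rw [h1 i hi.1, mul_zero]

end

section

variable {ν : Type*} [Fintype ν] [DecidableEq ν] {K : Type*} [Field K]
  {T : Type*} [AddCommGroup T] [Module K T]

/-- the matrix over the polynomials -/
noncomputable def mat (A₀ : Matrix ν ν K) (A₁ : T →ₗ[K] Matrix ν ν K) (Y z : T) :
    Matrix ν ν K[X] := fun i j => C (A₀ i j) + X * C (A₁ Y i j) + X ^ 2 * C (A₁ z i j)

/-- The determinant has a zero of order three with the cubic term `c S`. -/
def Third (A₀ : Matrix ν ν K) (A₁ : T →ₗ[K] Matrix ν ν K) (c : K) (S : T → K) (Q : T → T → K)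
    (c₄ : T → K) : Prop :=
  ∀ Y z : T, ∃ r : K[X],
    (mat A₀ A₁ Y z).det = X ^ 3 * (C (c * S Y) + X * (C (c₄ Y + 3 * c * Q Y z) + X * r))

theorem erase_prod {R : Type*} [CommRing R] (o : ν) (a : R) :
    ∏ i : ν, (if i = o then a else 1) = a := by
  rw [prod_ite_eq' univ o (fun _ => a)]
  simp

theorem eval_det (M : Matrix ν ν K[X]) : eval 0 M.det = (M.map (eval 0)).det := by
  have := RingHom.map_det (evalRingHom (0 : K)) M
  simpa using this

/-- the case of a diagonal matrix -/
theorem core_diag [CharZero K] [Module.Finite K T] (D : ν → K) (A₁ : T →ₗ[K] Matrix ν ν K) {c : K}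
    (hc : c ≠ 0) (S : T → K) (Q : T → T → K) (c₄ : T → K) (hQ0 : ∀ Y, Q Y 0 = 0)
    (H : Third (Matrix.diagonal D) A₁ c S Q c₄) :
    (∃ V : Submodule K T, finrank K T ≤ finrank K V + 4 ∧ ∀ Y ∈ V, S Y = 0) ∨
    (∃ U : Submodule K T, finrank K T + 1 ≤ finrank K U + Fintype.card ν ∧
      ∀ Y ∈ U, ∀ z, Q Y z = 0) := by
  -- the matrix at zero is singular
  have hprod : ∏ i, D i = 0 := by
    obtain ⟨r, hr⟩ := H 0 0
    have h1 := congrArg (eval 0) hr
    rw [eval_det] at h1
    have h2 : (mat (Matrix.diagonal D) A₁ 0 0).map (eval 0) = Matrix.diagonal D := by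
      ext i j
      simp [mat]
    rw [h2, Matrix.det_diagonal] at h1
    rw [h1]
    simp
  obtain ⟨o, -, ho⟩ := prod_eq_zero_iff.1 hprod
  by_cases hex : ∃ o', o' ≠ o ∧ D o' = 0
  · -- two zeros
    left
    obtain ⟨o', hoo, ho'⟩ := hex
    let g : Bool → ν := fun b => if b then o else o'
    let L : T →ₗ[K] (Bool × Bool → K) :=
      { toFun := fun Y p => A₁ Y (g p.1) (g p.2)
        map_add' := fun x y => by ext p; simp
        map_smul' := fun x y => by ext p; simp }
    have hL : ∀ Y p, L Y p = A₁ Y (g p.1) (g p.2) := fun _ _ => rfl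
    refine ⟨LinearMap.ker L, ?_, ?_⟩
    · have h1 := LinearMap.finrank_range_add_finrank_ker L
      have h2 := Submodule.finrank_le (LinearMap.range L)
      rw [Module.finrank_fintype_fun_eq_card] at h2
      have h3 : Fintype.card (Bool × Bool) = 4 := by decide
      omega
    · intro Y hY
      rw [LinearMap.mem_ker] at hY
      have hz : ∀ i j, (i = o ∨ i = o') → (j = o ∨ j = o') → A₁ Y i j = 0 := by
        intro i j hi hj
        obtain ⟨a, ha⟩ : ∃ a, g a = i := by
          rcases hi with h | h
          · exact ⟨true, by simp [g, h]⟩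
          · exact ⟨false, by simp [g, h]⟩
        obtain ⟨b, hb⟩ : ∃ b, g b = j := by
          rcases hj with h | h
          · exact ⟨true, by simp [g, h]⟩
          · exact ⟨false, by simp [g, h]⟩
        have := congrFun hY (a, b)
        rw [hL, ha, hb] at this
        exact this
      obtain ⟨r, hr⟩ := H Y 0
      let e : ν → K[X] := fun i => if i = o then X else if i = o' then X else 1
      let N : Matrix ν ν K[X] := fun i j =>
        if (i = o ∨ i = o') ∧ (j = o ∨ j = o') then 0
        else if (i = o ∨ i = o') ∨ (j = o ∨ j = o') then C (A₁ Y i j)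
        else mat (Matrix.diagonal D) A₁ Y 0 i j
      have hDz : ∀ i, (i = o ∨ i = o') → D i = 0 := by
        rintro i (h | h)
        · rw [h, ho]
        · rw [h, ho']
      have heX : ∀ i, (i = o ∨ i = o') → e i = X := by
        rintro i (h | h)
        · simp [e, h]
        · simp [e, h]
      have he1 : ∀ i, ¬ (i = o ∨ i = o') → e i = 1 := by
        intro i h
        rw [not_or] at h
        simp [e, h.1, h.2]
      have hMN : ∀ i j, mat (Matrix.diagonal D) A₁ Y 0 i j = e i * N i j * e j := by
        intro i j
        by_cases hi : i = o ∨ i = o' <;> by_cases hj : j = o ∨ j = o'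
        · have hN : N i j = 0 := if_pos ⟨hi, hj⟩
          rw [hN, mul_zero, zero_mul]
          simp only [mat, hz i j hi hj, map_zero, mul_zero, add_zero, Matrix.zero_apply]
          by_cases hij : i = j
          · rw [hij, Matrix.diagonal_apply_eq, hDz j hj, map_zero]
          · rw [Matrix.diagonal_apply_ne _ hij, map_zero]
        · have hN : N i j = C (A₁ Y i j) := by
            simp only [N]
            rw [if_neg (fun h => hj h.2), if_pos (Or.inl hi)]
          have hij : i ≠ j := fun h => hj (h ▸ hi)
          rw [hN, heX i hi, he1 j hj]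
          simp [mat, Matrix.diagonal_apply_ne _ hij]
        · have hN : N i j = C (A₁ Y i j) := by
            simp only [N]
            rw [if_neg (fun h => hi h.1), if_pos (Or.inr hj)]
          have hij : i ≠ j := fun h => hi (h ▸ hj)
          rw [hN, heX j hj, he1 i hi]
          simp only [mat, Matrix.diagonal_apply_ne _ hij, map_zero, Matrix.zero_apply]
          ring
        · have hN : N i j = mat (Matrix.diagonal D) A₁ Y 0 i j := by
            simp only [N]
            rw [if_neg (fun h => hi h.1), if_neg (fun h => h.elim hi hj)]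
          rw [hN, he1 i hi, he1 j hj, one_mul, mul_one]
      have hdet := det_scale _ N e e hMN
      have hpe : ∏ i, e i = X ^ 2 := by
        have h1 : ∀ i, e i = (if i = o then X else 1) * (if i = o' then X else 1) := by
          intro i
          by_cases h1 : i = o
          · have : i ≠ o' := fun h => hoo (h.symm.trans h1)
            simp [e, h1, hoo.symm]
          · simp [e, h1]
        rw [prod_congr rfl fun i _ => h1 i, prod_mul_distrib, erase_prod, erase_prod]
        ring
      rw [hpe, hr] at hdet
      have h3 : (X : K[X]) ^ 3 ≠ 0 := pow_ne_zero _ X_ne_zero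
      have h4 : C (c * S Y) + X * (C (c₄ Y + 3 * c * Q Y 0) + X * r) = X * N.det := by
        refine mul_left_cancel₀ h3 ?_
        rw [hdet]
        ring
      have h5 := congrArg (eval 0) h4
      simp at h5
      rcases h5 with h5 | h5
      · exact absurd h5 hc
      · exact h5
  · -- one zero
    right
    push Not at hex
    have hD : ∀ i, i ≠ o → D i ≠ 0 := hex
    have hX3 : (X : K[X]) ^ 3 ≠ 0 := pow_ne_zero _ X_ne_zero
    -- the corner vanishes
    have hcorner : ∀ Y, A₁ Y o o = 0 := by
      intro Y
      obtain ⟨r, hr⟩ := H Y 0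
      let N : Matrix ν ν K[X] := fun i j =>
        if i = o then C (A₁ Y o j) else mat (Matrix.diagonal D) A₁ Y 0 i j
      have hMN : ∀ i j, mat (Matrix.diagonal D) A₁ Y 0 i j =
          (if i = o then X else 1) * N i j * (fun _ => (1 : K[X])) j := by
        intro i j
        by_cases hi : i = o
        · rw [hi]
          simp only [N, if_pos, mat, map_zero, Matrix.zero_apply, mul_zero, add_zero, mul_one]
          by_cases hj : o = j
          · rw [← hj, Matrix.diagonal_apply_eq, ho, map_zero, zero_add]
          · rw [Matrix.diagonal_apply_ne _ hj, map_zero, zero_add]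
        · simp [N, hi]
      have hdet := det_scale _ N _ _ hMN
      rw [erase_prod, prod_const_one, mul_one, hr] at hdet
      have h4 : X ^ 2 * (C (c * S Y) + X * (C (c₄ Y + 3 * c * Q Y 0) + X * r)) = N.det := by
        refine mul_left_cancel₀ (X_ne_zero (R := K)) ?_
        rw [← hdet]
        ring
      have h5 : (N.map (eval 0)).det = 0 := by
        rw [← eval_det, ← h4]
        simp
      have hmap : ∀ i j, (N.map (eval 0)) i j = eval 0 (N i j) := fun _ _ => rfl
      have h6 := row_det D o _ hD (fun i j hi => by
        rw [hmap]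
        simp only [N, if_neg hi, mat]
        by_cases hij : i = j
        · simp [hij]
        · simp [hij, Matrix.diagonal_apply_ne _ hij]) h5
      rw [hmap] at h6
      simpa [N] using h6
    -- the bordered determinant vanishes
    have hbord : ∀ Y, (bord D o (A₁ Y)).det = 0 := by
      intro Y
      obtain ⟨r, hr⟩ := H Y 0
      let N : Matrix ν ν K[X] := fun i j =>
        if i = o then (if j = o then 0 else C (A₁ Y o j)) else if j = o then C (A₁ Y i o)
        else mat (Matrix.diagonal D) A₁ Y 0 i j
      have hMN : ∀ i j, mat (Matrix.diagonal D) A₁ Y 0 i j =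
          (if i = o then X else 1) * N i j * (if j = o then X else 1) := by
        intro i j
        by_cases hi : i = o <;> by_cases hj : j = o
        · rw [hi, hj]
          simp [N, mat, ho, hcorner]
        · rw [hi]
          simp [N, mat, hj, Matrix.diagonal_apply_ne _ (Ne.symm hj)]
        · rw [hj]
          simp only [N, mat, hi, if_pos, if_neg hi, Matrix.diagonal_apply_ne _ hi, map_zero,
            Matrix.zero_apply, if_false]
          ring
        · simp [N, hi, hj]
      have hdet := det_scale _ N _ _ hMN
      rw [erase_prod, hr] at hdet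
      have h4 : X * (C (c * S Y) + X * (C (c₄ Y + 3 * c * Q Y 0) + X * r)) = N.det := by
        refine mul_left_cancel₀ (pow_ne_zero 2 (X_ne_zero (R := K))) ?_
        linear_combination hdet
      have h5 : (N.map (eval 0)).det = 0 := by
        rw [← eval_det, ← h4]
        simp
      rw [← h5]
      congr 1
      ext i j
      rw [show (N.map (eval 0)) i j = eval 0 (N i j) from rfl]
      by_cases hi : i = o <;> by_cases hj : j = o
      · simp [N, bord, hi, hj]
      · simp [N, bord, hi, hj]
      · simp [N, bord, hi, hj]
      · simp [N, bord, hi, hj, mat, Matrix.diagonal_apply]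
    -- the two linear maps
    let b : T →ₗ[K] ({i // i ≠ o} → K) :=
      { toFun := fun Y i => A₁ Y o i
        map_add' := fun x y => by ext p; simp
        map_smul' := fun x y => by ext p; simp }
    let d : T →ₗ[K] ({i // i ≠ o} → K) :=
      { toFun := fun Y i => A₁ Y i o / D i
        map_add' := fun x y => by ext p; simp [add_div]
        map_smul' := fun x y => by ext p; simp [mul_div_assoc] }
    have hb : ∀ Y i, b Y i = A₁ Y o i := fun _ _ => rfl
    have hd : ∀ Y i, d Y i = A₁ Y i o / D i := fun _ _ => rfl
    have hskew : ∀ Y, ∑ i, b Y i * d Y i = 0 := fun Y => bord_det D o (A₁ Y) hD (hbord Y)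
    have hdim := skew b d hskew
    have hcard : Fintype.card {i // i ≠ o} + 1 = Fintype.card ν := by
      have h1 := Fintype.card_subtype_compl (fun i => i = o)
      have h2 : Fintype.card {i // i = o} = 1 := Fintype.card_subtype_eq o
      rw [h2] at h1
      have h3 : 1 ≤ Fintype.card ν := Fintype.card_pos_iff.2 ⟨o⟩
      have h4 : Fintype.card {i // i ≠ o} = Fintype.card ν - 1 := h1
      omega
    refine ⟨LinearMap.ker b ⊓ LinearMap.ker d, by omega, ?_⟩
    intro Y hY z
    rw [Submodule.mem_inf, LinearMap.mem_ker, LinearMap.mem_ker] at hY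
    have hYb : ∀ j, j ≠ o → A₁ Y o j = 0 := fun j hj => by
      have := congrFun hY.1 ⟨j, hj⟩
      simpa [hb] using this
    have hYd : ∀ j, j ≠ o → A₁ Y j o = 0 := fun j hj => by
      have := congrFun hY.2 ⟨j, hj⟩
      rw [hd, Pi.zero_apply, div_eq_zero_iff] at this
      exact this.resolve_right (hD j hj)
    have key : ∀ z, c₄ Y + 3 * c * Q Y z = 0 := by
      intro z
      obtain ⟨r, hr⟩ := H Y z
      let N : Matrix ν ν K[X] := fun i j =>
        if i = o then (if j = o then 0 else C (A₁ z o j)) else if j = o then C (A₁ z i o)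
        else mat (Matrix.diagonal D) A₁ Y z i j
      have hMN : ∀ i j, mat (Matrix.diagonal D) A₁ Y z i j =
          (if i = o then X ^ 2 else 1) * N i j * (if j = o then X ^ 2 else 1) := by
        intro i j
        by_cases hi : i = o <;> by_cases hj : j = o
        · rw [hi, hj]
          simp [N, mat, ho, hcorner]
        · rw [hi]
          simp [N, mat, hj, Matrix.diagonal_apply_ne _ (Ne.symm hj), hYb j hj]
        · rw [hj]
          simp only [N, mat, hi, if_pos, if_neg hi, Matrix.diagonal_apply_ne _ hi, map_zero,
            hYd i hi, if_false]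
          ring
        · simp [N, hi, hj]
      have hdet := det_scale _ N _ _ hMN
      rw [erase_prod, hr] at hdet
      have h4 : C (c * S Y) + X * (C (c₄ Y + 3 * c * Q Y z) + X * r) = X * N.det := by
        refine mul_left_cancel₀ hX3 ?_
        linear_combination hdet
      have h5 : c * S Y = 0 := by
        have := congrArg (eval 0) h4
        simpa using this
      have h6 : C (c₄ Y + 3 * c * Q Y z) + X * r = N.det := by
        refine mul_left_cancel₀ (X_ne_zero (R := K)) ?_
        rw [← h4, h5, map_zero, zero_add]
      have h7 := congrArg (eval 0) h6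
      rw [eval_det] at h7
      have h8 : N.map (eval 0) = bord D o (A₁ z) := by
        ext i j
        rw [show (N.map (eval 0)) i j = eval 0 (N i j) from rfl]
        by_cases hi : i = o <;> by_cases hj : j = o
        · simp [N, bord, hi, hj]
        · simp [N, bord, hi, hj]
        · simp [N, bord, hi, hj]
        · simp [N, bord, hi, hj, mat, Matrix.diagonal_apply]
      rw [h8, hbord z] at h7
      simpa using h7
    have k0 := key 0
    have k1 := key z
    rw [hQ0, mul_zero, add_zero] at k0
    rw [k0, zero_add] at k1
    rcases mul_eq_zero.1 k1 with h | h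
    · rcases mul_eq_zero.1 h with h | h
      · exact absurd h three_ne_zero
      · exact absurd h hc
    · exact h

end

end Pool.Agent.L5helper62.DC
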