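import Mathlib

/-!
# Linear algebra for the determinant at a zero of order three
-/

set_option autoImplicit false

namespace Pool.Agent.L5helper62.DC

open Finset Module

section perp

variable {K : Type*} [Field K] {ι : Type*} [Fintype ι]

/-- orthogonal subspaces of `K ^ ι` -/
theorem perp (W W' : Submodule K (ι → K)) (h : ∀ w ∈ W, ∀ w' ∈ W', ∑ i, w i * w' i = 0) :
    finrank K W + finrank K W' ≤ Fintype.card ι := by
  classical
  -- the map `w' ↦ (w ↦ ∑ w i * w' i)`
  let f : (ι → K) →ₗ[K] Module.Dual K (ι → K) :=
    LinearMap.mk₂ K (fun w' w => ∑ i, w i * w' i)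
      (fun a b c => by simp [mul_add, sum_add_distrib])
      (fun a b c => by simp [mul_sum, mul_left_comm])
      (fun a b c => by simp [add_mul, sum_add_distrib])
      (fun a b c => by simp [mul_sum, mul_assoc])
  have hf : ∀ w' w, f w' w = ∑ i, w i * w' i := fun _ _ => rfl
  have hinj : Function.Injective f := by
    rw [injective_iff_map_eq_zero]
    intro w' hw'
    funext i
    have := hf w' (Pi.single i 1)
    rw [hw'] at this
    simp [Pi.single_apply] at this
    exact this.symm
  have hle : W'.map f ≤ W.dualAnnihilator := by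
    rintro _ ⟨w', hw', rfl⟩
    rw [Submodule.mem_dualAnnihilator]
    intro w hw
    rw [hf]
    exact h w hw w' hw'
  have h1 : finrank K W' = finrank K (W'.map f) :=
    LinearEquiv.finrank_eq (Submodule.equivMapOfInjective f hinj W')
  have h2 := Submodule.finrank_mono hle
  have h3 := Subspace.finrank_add_finrank_dualAnnihilator_eq W
  rw [Module.finrank_fintype_fun_eq_card] at h3
  omega

/-- If the products of the elements of `U` are orthogonal to `T`, then
`dim U + dim T ≤ |ι|`. -/
theorem prod_perp [Infinite K] (U T : Submodule K (ι → K))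
    (h : ∀ u ∈ U, ∀ v ∈ U, ∀ z ∈ T, ∑ i, u i * v i * z i = 0) :
    finrank K U + finrank K T ≤ Fintype.card ι := by
  classical
  -- an element whose coordinates are nonzero whenever possible
  obtain ⟨u, hu, hgen⟩ : ∃ u ∈ U, ∀ i, u i = 0 → ∀ v ∈ U, v i = 0 := by
    by_contra hcon
    push Not at hcon
    let p : ι → Submodule K U := fun i =>
      if (∀ v ∈ U, v i = 0) then ⊥ else LinearMap.ker ((LinearMap.proj i).comp U.subtype)
    by_cases hU : U = ⊥
    · obtain ⟨i, _, v, hv, hvi⟩ := hcon 0 U.zero_mem
      rw [hU, Submodule.mem_bot] at hv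
      rw [hv] at hvi
      exact hvi rfl
    · have hcov : ⋃ i, (p i : Set U) = Set.univ := by
        rw [Set.eq_univ_iff_forall]
        rintro ⟨u, hu⟩
        obtain ⟨i, hui, v, hv, hvi⟩ := hcon u hu
        rw [Set.mem_iUnion]
        refine ⟨i, ?_⟩
        have hn : ¬ ∀ v ∈ U, v i = 0 := fun hall => hvi (hall v hv)
        simp only [p, if_neg hn]
        simpa using hui
      obtain ⟨i, hi⟩ := Subspace.exists_eq_top_of_iUnion_eq_univ hcov
      by_cases hn : ∀ v ∈ U, v i = 0
      · simp only [p, if_pos hn] at hi
        apply hU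
        rw [Submodule.eq_bot_iff]
        intro x hx
        have : (⟨x, hx⟩ : U) ∈ (⊤ : Submodule K U) := Submodule.mem_top
        rw [← hi, Submodule.mem_bot] at this
        exact congrArg Subtype.val this
      · simp only [p, if_neg hn] at hi
        apply hn
        intro v hv
        have : (⟨v, hv⟩ : U) ∈ (⊤ : Submodule K U) := Submodule.mem_top
        rw [← hi] at this
        simpa using this
  let g : (ι → K) →ₗ[K] (ι → K) := LinearMap.mulLeft K u
  have hg : ∀ v, g v = u * v := fun v => rfl
  have hinj : Function.Injective (g.domRestrict U) := by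
    rw [injective_iff_map_eq_zero]
    rintro ⟨v, hv⟩ hv0
    ext i
    have hi : u i * v i = 0 := by
      have := congrFun hv0 i
      simpa [hg] using this
    rcases mul_eq_zero.1 hi with h0 | h0
    · simpa using hgen i h0 v hv
    · simpa using h0
  have h1 : finrank K (U.map g) = finrank K U := by
    have e := LinearEquiv.finrank_eq (LinearEquiv.ofInjective (g.domRestrict U) hinj)
    rw [LinearMap.range_domRestrict] at e
    exact e.symm
  rw [← h1]
  refine perp _ _ ?_
  rintro _ ⟨v, hv, rfl⟩ z hz
  rw [← h u hu v hv z hz]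
  rfl

/-- Two linear maps `b`, `c` with `∑ b_i(z) c_i(z) = 0` have common kernel of codimension at most
the number of coordinates. -/
theorem skew [NeZero (2 : K)] {T : Type*} [AddCommGroup T] [Module K T] [Module.Finite K T]
    (b c : T →ₗ[K] (ι → K)) (h : ∀ z, ∑ i, b z i * c z i = 0) :
    finrank K T ≤ finrank K (LinearMap.ker b ⊓ LinearMap.ker c : Submodule K T) +
      Fintype.card ι := by
  classical
  have hpol : ∀ z w, ∑ i, b z i * c w i + ∑ i, c z i * b w i = 0 := by
    intro z w
    have h1 := h (z + w)
    have h2 := h z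
    have h3 := h w
    simp only [map_add, Pi.add_apply, add_mul, mul_add, sum_add_distrib] at h1
    have e : ∑ i, c z i * b w i = ∑ i, b w i * c z i := sum_congr rfl fun i _ => mul_comm _ _
    rw [e]
    linear_combination h1 - h2 - h3
  let θ : T →ₗ[K] (ι ⊕ ι → K) :=
    { toFun := fun z => Sum.elim (b z) (c z)
      map_add' := fun x y => by ext (i | i) <;> simp
      map_smul' := fun x y => by ext (i | i) <;> simp }
  let θ' : T →ₗ[K] (ι ⊕ ι → K) :=
    { toFun := fun z => Sum.elim (c z) (b z)
      map_add' := fun x y => by ext (i | i) <;> simp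
      map_smul' := fun x y => by ext (i | i) <;> simp }
  have hθ : ∀ z, θ z = Sum.elim (b z) (c z) := fun _ => rfl
  have hθ' : ∀ z, θ' z = Sum.elim (c z) (b z) := fun _ => rfl
  have hk : LinearMap.ker θ = LinearMap.ker b ⊓ LinearMap.ker c := by
    ext z
    simp only [LinearMap.mem_ker, Submodule.mem_inf, hθ]
    constructor
    · intro hz
      exact ⟨funext fun i => by simpa using congrFun hz (Sum.inl i),
        funext fun i => by simpa using congrFun hz (Sum.inr i)⟩
    · rintro ⟨h1, h2⟩
      ext (i | i)
      · simpa using congrFun h1 i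
      · simpa using congrFun h2 i
  have hk' : LinearMap.ker θ' = LinearMap.ker b ⊓ LinearMap.ker c := by
    ext z
    simp only [LinearMap.mem_ker, Submodule.mem_inf, hθ']
    constructor
    · intro hz
      exact ⟨funext fun i => by simpa using congrFun hz (Sum.inr i),
        funext fun i => by simpa using congrFun hz (Sum.inl i)⟩
    · rintro ⟨h1, h2⟩
      ext (i | i)
      · simpa using congrFun h2 i
      · simpa using congrFun h1 i
  have h1 := perp (LinearMap.range θ) (LinearMap.range θ') (by
    rintro _ ⟨z, rfl⟩ _ ⟨w, rfl⟩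
    rw [hθ, hθ', Fintype.sum_sum_type]
    simpa using hpol z w)
  have h2 := LinearMap.finrank_range_add_finrank_ker θ
  have h3 := LinearMap.finrank_range_add_finrank_ker θ'
  rw [hk] at h2
  rw [hk'] at h3
  rw [Fintype.card_sum] at h1
  omega

end perp

end Pool.Agent.L5helper62.DC
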