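import Mathlib

/-!
# The permanent at a zero of order three

Let `n = |α|` and let `base` be the matrix with all entries one, except `2 - n`, `0` in the places
`(o₁, o₁)`, `(o₂, o₁)` and `4 - n` in the place `(o₂, o₂)`. If `y` has zero rows and columns with
the indices `o₁`, `o₂` and all its line sums are zero, then
`perm (base + τ y) = 2 (n - 5)! τ³ ∑ y_ij³ + τ⁴ …`.
-/

set_option autoImplicit false

namespace Pool.Agent.L5helper62.DC

open Finset Equiv

section

variable {α : Type*} [Fintype α] [DecidableEq α] {R : Type*} [CommRing R]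

/-- Averaging of a function at a new place. -/
theorem avg (φ : Perm α → R) (S : Finset α)
    (hφ : ∀ i ∉ S, ∀ j ∉ S, ∀ σ, φ (σ * swap i j) = φ σ) (h : α → R)
    (j₀ : α) (hj : j₀ ∉ S) :
    ((Fintype.card α : R) - S.card) * ∑ σ, φ σ * h (σ j₀) =
      (∑ r, h r) * ∑ σ, φ σ - ∑ l ∈ S, ∑ σ, φ σ * h (σ l) := by
  have h1 : ∀ j ∈ Sᶜ, ∑ σ, φ σ * h (σ j) = ∑ σ, φ σ * h (σ j₀) := by
    intro j hjS
    rw [mem_compl] at hjS
    refine Fintype.sum_equiv (Equiv.mulRight (swap j j₀)) _ _ ?_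
    intro σ
    simp [hφ j hjS j₀ hj]
  have h2 : ∑ j, ∑ σ, φ σ * h (σ j) = (∑ r, h r) * ∑ σ, φ σ := by
    rw [sum_comm, mul_sum]
    refine sum_congr rfl fun σ _ => ?_
    rw [← mul_sum, Equiv.sum_comp σ h, mul_comm]
  rw [← sum_add_sum_compl S, sum_congr rfl h1, sum_const, card_compl, nsmul_eq_mul,
    Nat.cast_sub (card_le_univ S)] at h2
  linear_combination h2

/-- The sum over the permutations of the product over the columns in `S`. -/
def G (y : Matrix α α R) (S : Finset α) : R := ∑ σ : Perm α, ∏ i ∈ S, y (σ i) i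

omit [Fintype α] in
theorem prod_swap (y : Matrix α α R) (S : Finset α) (i j : α) (hi : i ∉ S) (hj : j ∉ S)
    (σ : Perm α) : ∏ l ∈ S, y ((σ * swap i j) l) l = ∏ l ∈ S, y (σ l) l := by
  refine prod_congr rfl fun l hl => ?_
  rw [Perm.mul_apply, swap_apply_of_ne_of_ne]
  · rintro rfl; exact hi hl
  · rintro rfl; exact hj hl

omit [Fintype α] in
/-- a function which is one where `y` does not vanish can be dropped -/
theorem drop (y : Matrix α α R) (g : α → R) (hg : ∀ r j, g r * y r j = y r j) (S : Finset α)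
    (l : α) (hl : l ∈ S) (σ : Perm α) :
    (∏ i ∈ S, y (σ i) i) * g (σ l) = ∏ i ∈ S, y (σ i) i := by
  rw [← mul_prod_erase S _ hl]
  linear_combination (∏ i ∈ S.erase l, y (σ i) i) * hg (σ l) l

theorem one_place (y : Matrix α α R) (g : α → R) (hg : ∀ r j, g r * y r j = y r j) (S : Finset α)
    (o : α) (ho : o ∉ S) :
    ((Fintype.card α : R) - S.card) * ∑ σ : Perm α, (∏ i ∈ S, y (σ i) i) * g (σ o) =
      ((∑ r, g r) - S.card) * G y S := by
  have h := avg (fun σ => ∏ i ∈ S, y (σ i) i) S (fun i hi j hj σ => prod_swap y S i j hi hj σ) g o ho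
  rw [h, sum_congr rfl fun l hl => sum_congr rfl fun σ _ => drop y g hg S l hl σ, sum_const,
    nsmul_eq_mul, G]
  ring

/-- two places -/
theorem two_places (y : Matrix α α R) (g₁ g₂ : α → R) (h1 : ∀ r j, g₁ r * y r j = y r j)
    (h2 : ∀ r j, g₂ r * y r j = y r j) (S : Finset α) (o₁ o₂ : α) (ho1 : o₁ ∉ S) (ho2 : o₂ ∉ S)
    (h12 : o₁ ≠ o₂) :
    ((Fintype.card α : R) - S.card) * ((Fintype.card α : R) - S.card - 1) *
        ∑ σ : Perm α, ((∏ i ∈ S, y (σ i) i) * g₂ (σ o₂)) * g₁ (σ o₁) =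
      (((∑ r, g₁ r) - S.card) * ((∑ r, g₂ r) - S.card) - ((∑ r, g₁ r * g₂ r) - S.card)) * G y S := by
  have hm : o₁ ∉ insert o₂ S := by
    rw [mem_insert, not_or]
    exact ⟨h12, ho1⟩
  have h := avg (fun σ => (∏ i ∈ S, y (σ i) i) * g₂ (σ o₂)) (insert o₂ S) (by
    intro i hi j hj σ
    rw [mem_insert, not_or] at hi hj
    change (∏ l ∈ S, y ((σ * swap i j) l) l) * g₂ ((σ * swap i j) o₂) = _
    rw [prod_swap y S i j hi.2 hj.2, Perm.mul_apply, swap_apply_of_ne_of_ne (Ne.symm hi.1)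
      (Ne.symm hj.1)]) g₁ o₁ hm
  rw [card_insert_of_notMem ho2, sum_insert ho2] at h
  have e1 : ∑ l ∈ S, ∑ σ : Perm α, ((∏ i ∈ S, y (σ i) i) * g₂ (σ o₂)) * g₁ (σ l) =
      S.card * ∑ σ : Perm α, (∏ i ∈ S, y (σ i) i) * g₂ (σ o₂) := by
    rw [← nsmul_eq_mul, ← sum_const]
    refine sum_congr rfl fun l hl => sum_congr rfl fun σ _ => ?_
    have := drop y g₁ h1 S l hl σ
    linear_combination g₂ (σ o₂) * this
  have e2 : ∑ σ : Perm α, ((∏ i ∈ S, y (σ i) i) * g₂ (σ o₂)) * g₁ (σ o₂) =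
      ∑ σ : Perm α, (∏ i ∈ S, y (σ i) i) * (fun r => g₁ r * g₂ r) (σ o₂) :=
    sum_congr rfl fun σ _ => by ring
  have e3 := one_place y (fun r => g₁ r * g₂ r) (fun r j => by
    change g₁ r * g₂ r * y r j = y r j
    rw [mul_assoc, h2, h1]) S o₂ ho2
  have e4 := one_place y g₂ h2 S o₂ ho2
  rw [e1, e2] at h
  push_cast at h
  linear_combination ((Fintype.card α : R) - S.card) * h - e3 +
    ((∑ r, g₁ r) - S.card) * e4

theorem single (g : α → R) (i : α) :
    (Fintype.card α : R) * ∑ σ : Perm α, g (σ i) = (Fintype.card α).factorial * ∑ r, g r := by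
  have h1 : ∀ j ∈ (univ : Finset α), ∑ σ : Perm α, g (σ j) = ∑ σ : Perm α, g (σ i) := by
    intro j _
    refine Fintype.sum_equiv (Equiv.mulRight (swap j i)) _ _ ?_
    intro σ
    simp
  have h2 : ∑ j, ∑ σ : Perm α, g (σ j) = (Fintype.card α).factorial * ∑ r, g r := by
    rw [sum_comm, sum_congr rfl fun σ _ => Equiv.sum_comp σ g, sum_const, card_univ,
      Fintype.card_perm, nsmul_eq_mul]
  rw [sum_congr rfl h1, sum_const, card_univ, nsmul_eq_mul] at h2
  exact h2

theorem two (g h : α → R) (hh : ∑ r, h r = 0) (i j : α) (hij : i ≠ j) :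
    ((Fintype.card α : R) - 1) * ∑ σ : Perm α, g (σ i) * h (σ j) =
      - ∑ σ : Perm α, g (σ i) * h (σ i) := by
  have := avg (fun σ => g (σ i)) {i} (by
    intro a ha b hb σ
    rw [mem_singleton] at ha hb
    simp only [Perm.mul_apply]
    rw [swap_apply_of_ne_of_ne (Ne.symm ha) (Ne.symm hb)]) h j (by simpa using hij.symm)
  simpa [hh] using this

theorem three (f g h : α → R) (hh : ∑ r, h r = 0) (i j k : α) (hij : i ≠ j) (hik : i ≠ k)
    (hjk : j ≠ k) :
    ((Fintype.card α : R) - 2) * ∑ σ : Perm α, f (σ i) * g (σ j) * h (σ k) =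
      - ∑ σ : Perm α, f (σ i) * h (σ i) * g (σ j) - ∑ σ : Perm α, f (σ i) * (g (σ j) * h (σ j)) := by
  have := avg (fun σ => f (σ i) * g (σ j)) {i, j} (by
    intro a ha b hb σ
    simp only [mem_insert, mem_singleton, not_or] at ha hb
    simp only [Perm.mul_apply]
    rw [swap_apply_of_ne_of_ne (Ne.symm ha.1) (Ne.symm hb.1),
      swap_apply_of_ne_of_ne (Ne.symm ha.2) (Ne.symm hb.2)]) h k (by
        simp [hik.symm, hjk.symm])
  rw [card_pair hij, sum_pair hij, hh, zero_mul, zero_sub] at this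
  push_cast at this
  rw [this, neg_add]
  rw [sub_eq_add_neg]
  congr 2
  · refine sum_congr rfl fun σ _ => by ring
  · refine sum_congr rfl fun σ _ => by ring

/-- three columns with zero sums -/
theorem triple (u v w : α → R) (hu : ∑ r, u r = 0) (hv : ∑ r, v r = 0) (hw : ∑ r, w r = 0)
    (i j k : α) (hij : i ≠ j) (hik : i ≠ k) (hjk : j ≠ k) :
    (Fintype.card α : R) * ((Fintype.card α : R) - 1) * ((Fintype.card α : R) - 2) *
      ∑ σ : Perm α, u (σ i) * v (σ j) * w (σ k) =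
        2 * (Fintype.card α).factorial * ∑ r, u r * v r * w r := by
  have t := three u v w hw i j k hij hik hjk
  have t1 := two (fun r => u r * w r) v hv i j hij
  have t2 := two (fun r => v r * w r) u hu j i hij.symm
  have t3 := single (fun r => u r * v r * w r) i
  have t4 := single (fun r => u r * v r * w r) j
  have e1 : ∑ σ : Perm α, u (σ i) * w (σ i) * v (σ i) = ∑ σ : Perm α, u (σ i) * v (σ i) * w (σ i) :=
    sum_congr rfl fun σ _ => by ring
  have e2 : ∑ σ : Perm α, v (σ j) * w (σ j) * u (σ j) = ∑ σ : Perm α, u (σ j) * v (σ j) * w (σ j) :=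
    sum_congr rfl fun σ _ => by ring
  have e3 : ∑ σ : Perm α, v (σ j) * w (σ j) * u (σ i) =
      ∑ σ : Perm α, u (σ i) * (v (σ j) * w (σ j)) :=
    sum_congr rfl fun σ _ => by ring
  rw [e1] at t1
  rw [e2, e3] at t2
  linear_combination (Fintype.card α : R) * ((Fintype.card α : R) - 1) * t
    - (Fintype.card α : R) * t1 - (Fintype.card α : R) * t2 + t3 + t4

/-! ### The base point -/

/-- The first column of the base point. -/
def colA (R : Type*) [CommRing R] (o₁ o₂ : α) (r : α) : R :=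
  if r = o₁ then 2 - (Fintype.card α : R) else if r = o₂ then 0 else 1

/-- The second column of the base point. -/
def colB (R : Type*) [CommRing R] (o₂ : α) (r : α) : R :=
  if r = o₂ then 4 - (Fintype.card α : R) else 1

/-- The base point. -/
def base (R : Type*) [CommRing R] (o₁ o₂ : α) : Matrix α α R :=
  Matrix.of fun i j => if j = o₁ then colA R o₁ o₂ i else if j = o₂ then colB R o₂ i else 1

theorem sum_two (o₁ o₂ : α) (h12 : o₁ ≠ o₂) (g : α → R) (c : R)
    (hg : ∀ r, r ≠ o₁ → r ≠ o₂ → g r = c) :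
    ∑ r, g r = g o₁ + g o₂ + ((Fintype.card α : R) - 2) * c := by
  have h2 : o₂ ∈ univ.erase o₁ := mem_erase.2 ⟨h12.symm, mem_univ _⟩
  have h3 : ∑ r ∈ (univ.erase o₁).erase o₂, g r = ((Fintype.card α : R) - 2) * c := by
    rw [sum_congr rfl (g := fun _ => c), sum_const, nsmul_eq_mul, card_erase_of_mem h2,
      card_erase_of_mem (mem_univ _), card_univ]
    · have hc : 2 ≤ Fintype.card α := by
        have : ({o₁, o₂} : Finset α).card ≤ Fintype.card α := card_le_univ _
        rwa [card_pair h12] at this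
      rw [Nat.sub_sub, Nat.cast_sub (by omega)]
      norm_num
    · intro r hr
      rw [mem_erase, mem_erase] at hr
      exact hg r hr.2.1 hr.1
  rw [← add_sum_erase univ g (mem_univ o₁), ← add_sum_erase _ g h2, h3]
  ring

theorem sum_colA (o₁ o₂ : α) (h12 : o₁ ≠ o₂) : ∑ r, colA R o₁ o₂ r = 0 := by
  rw [sum_two o₁ o₂ h12 _ 1 (fun r h1 h2 => by simp [colA, h1, h2])]
  simp only [colA, if_pos, if_neg h12.symm]
  ring

theorem sum_colB (o₁ o₂ : α) (h12 : o₁ ≠ o₂) : ∑ r, colB R o₂ r = 3 := by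
  rw [sum_two o₁ o₂ h12 _ 1 (fun r h1 h2 => by simp [colB, h2])]
  simp only [colB, if_pos, if_neg h12]
  ring

theorem sum_colAB (o₁ o₂ : α) (h12 : o₁ ≠ o₂) : ∑ r, colA R o₁ o₂ r * colB R o₂ r = 0 := by
  rw [sum_two o₁ o₂ h12 _ 1 (fun r h1 h2 => by simp [colA, colB, h1, h2])]
  simp only [colA, colB, if_pos, if_neg h12, if_neg h12.symm]
  ring

/-- The sum of the products over the set of columns `S`. -/
def E (o₁ o₂ : α) (y : Matrix α α R) (S : Finset α) : R :=
  ∑ σ : Perm α, ((∏ i ∈ S, y (σ i) i) * colB R o₂ (σ o₂)) * colA R o₁ o₂ (σ o₁)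

theorem E_eq (o₁ o₂ : α) (h12 : o₁ ≠ o₂) (y : Matrix α α R) (hr1 : ∀ j, y o₁ j = 0)
    (hr2 : ∀ j, y o₂ j = 0) (S : Finset α) (ho1 : o₁ ∉ S) (ho2 : o₂ ∉ S) :
    ((Fintype.card α : R) - S.card) * ((Fintype.card α : R) - S.card - 1) * E o₁ o₂ y S =
      S.card * (S.card - 2) * G y S := by
  have h := two_places y (colA R o₁ o₂) (colB R o₂) (fun r j => by
      unfold colA
      split_ifs with h1 h2
      · rw [h1, hr1, mul_zero]
      · rw [h2, hr2, mul_zero]
      · rw [one_mul]) (fun r j => by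
      unfold colB
      split_ifs with h2
      · rw [h2, hr2, mul_zero]
      · rw [one_mul]) S o₁ o₂ ho1 ho2 h12
  rw [sum_colA o₁ o₂ h12, sum_colB o₁ o₂ h12, sum_colAB o₁ o₂ h12] at h
  rw [E, h]
  ring

theorem expansion (o₁ o₂ : α) (h12 : o₁ ≠ o₂) (y : Matrix α α R) (hc1 : ∀ i, y i o₁ = 0)
    (hc2 : ∀ i, y i o₂ = 0) (τ : R) :
    (base R o₁ o₂ + τ • y).permanent =
      ∑ S ∈ ((univ.erase o₁).erase o₂).powerset, τ ^ S.card * E o₁ o₂ y S := by
  have h2 : o₂ ∈ univ.erase o₁ := mem_erase.2 ⟨h12.symm, mem_univ _⟩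
  have h1 : ∀ σ : Perm α, ∏ i, (base R o₁ o₂ + τ • y) (σ i) i =
      ∑ S ∈ ((univ.erase o₁).erase o₂).powerset,
        τ ^ S.card * (((∏ i ∈ S, y (σ i) i) * colB R o₂ (σ o₂)) * colA R o₁ o₂ (σ o₁)) := by
    intro σ
    rw [← mul_prod_erase univ _ (mem_univ o₁), ← mul_prod_erase _ _ h2]
    have e : ∀ i ∈ (univ.erase o₁).erase o₂, (base R o₁ o₂ + τ • y) (σ i) i = 1 + τ * y (σ i) i := by
      intro i hi
      rw [mem_erase, mem_erase] at hi
      simp [base, hi.1, hi.2.1]
    rw [prod_congr rfl e, prod_one_add, mul_sum, mul_sum]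
    refine sum_congr rfl fun S _ => ?_
    rw [prod_mul_distrib, prod_const]
    simp only [Matrix.add_apply, Matrix.smul_apply, hc1, hc2, smul_zero, add_zero]
    have e1 : base R o₁ o₂ (σ o₁) o₁ = colA R o₁ o₂ (σ o₁) := by simp [base]
    have e2 : base R o₁ o₂ (σ o₂) o₂ = colB R o₂ (σ o₂) := by simp [base, h12.symm]
    rw [e1, e2]
    ring
  rw [Matrix.permanent, sum_congr rfl fun σ _ => h1 σ, sum_comm]
  refine sum_congr rfl fun S _ => ?_
  rw [E, mul_sum]

/-! ### Newton identities -/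

omit [Fintype α] in
theorem el_insert (f : α → R) (k : ℕ) (a : α) (s : Finset α) (ha : a ∉ s) :
    ∑ S ∈ powersetCard (k + 1) (insert a s), ∏ i ∈ S, f i =
      ∑ S ∈ powersetCard (k + 1) s, ∏ i ∈ S, f i + f a * ∑ S ∈ powersetCard k s, ∏ i ∈ S, f i := by
  have hmem : ∀ S ∈ powersetCard k s, a ∉ S := fun S hS h =>
    ha ((mem_powersetCard.1 hS).1 h)
  rw [powersetCard_succ_insert ha, sum_union, sum_image, mul_sum]
  · congr 1
    refine sum_congr rfl fun S hS => ?_
    rw [prod_insert (hmem S hS)]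
  · intro S hS T hT h
    rw [← erase_insert (hmem S hS), h, erase_insert (hmem T hT)]
  · rw [disjoint_left]
    intro S hS hS'
    rw [mem_image] at hS'
    obtain ⟨T, _, rfl⟩ := hS'
    exact ha ((mem_powersetCard.1 hS).1 (mem_insert_self a T))

omit [Fintype α] in
theorem newton (f : α → R) (s : Finset α) :
    (∑ S ∈ powersetCard 1 s, ∏ i ∈ S, f i = ∑ i ∈ s, f i) ∧
    (2 * ∑ S ∈ powersetCard 2 s, ∏ i ∈ S, f i = (∑ i ∈ s, f i) ^ 2 - ∑ i ∈ s, f i ^ 2) ∧
    (6 * ∑ S ∈ powersetCard 3 s, ∏ i ∈ S, f i = (∑ i ∈ s, f i) ^ 3 -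
      3 * (∑ i ∈ s, f i) * ∑ i ∈ s, f i ^ 2 + 2 * ∑ i ∈ s, f i ^ 3) := by
  induction s using Finset.induction_on with
  | empty =>
    have h0 : ∀ k : ℕ, powersetCard (k + 1) (∅ : Finset α) = ∅ := fun k =>
      powersetCard_eq_empty.2 (by simp)
    have h1 : powersetCard 1 (∅ : Finset α) = ∅ := h0 0
    have h2 : powersetCard 2 (∅ : Finset α) = ∅ := h0 1
    have h3 : powersetCard 3 (∅ : Finset α) = ∅ := h0 2
    rw [h1, h2, h3]
    simp
  | insert a s ha ih =>
    obtain ⟨h1, h2, h3⟩ := ih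
    have e1 := el_insert f 0 a s ha
    have e2 := el_insert f 1 a s ha
    have e3 := el_insert f 2 a s ha
    simp only [powersetCard_zero, sum_singleton, prod_empty, mul_one, zero_add] at e1
    norm_num at e2 e3
    rw [e1, e2, e3, sum_insert ha, sum_insert ha, sum_insert ha]
    refine ⟨by rw [h1]; ring, ?_, ?_⟩
    · rw [h1]
      linear_combination h2
    · linear_combination h3 + 3 * f a * h2

end

/-! ### The terms of order at most three -/

section

variable {α : Type*} [Fintype α] [DecidableEq α] {R : Type*} [CommRing R] [IsDomain R] [CharZero R]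

omit [IsDomain R] in
theorem cast_sub_ne {a b : ℕ} (h : b < a) : ((a : R) - b) ≠ 0 := by
  rw [sub_ne_zero]
  exact_mod_cast h.ne'

theorem E_small (o₁ o₂ : α) (h12 : o₁ ≠ o₂) (y : Matrix α α R) (hr1 : ∀ j, y o₁ j = 0)
    (hr2 : ∀ j, y o₂ j = 0) (hcol : ∀ j, ∑ i, y i j = 0) (hn : 5 ≤ Fintype.card α)
    (S : Finset α) (ho1 : o₁ ∉ S) (ho2 : o₂ ∉ S) (hS : S.card ≤ 2) : E o₁ o₂ y S = 0 := by
  have h := E_eq o₁ o₂ h12 y hr1 hr2 S ho1 ho2
  have h1 : ((Fintype.card α : R) - S.card) * ((Fintype.card α : R) - S.card - 1) ≠ 0 := by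
    refine mul_ne_zero (cast_sub_ne (by omega)) ?_
    have := cast_sub_ne (R := R) (a := Fintype.card α) (b := S.card + 1) (by omega)
    push_cast at this
    rwa [← sub_sub] at this
  have h2 : ((S.card : R) * (S.card - 2)) * G y S = 0 := by
    interval_cases hk : S.card
    · simp
    · obtain ⟨i, rfl⟩ := card_eq_one.1 hk
      have h3 := single (fun r => y r i) i
      rw [hcol, mul_zero] at h3
      have h4 : ((Fintype.card α : R)) ≠ 0 := by
        have : Fintype.card α ≠ 0 := by omega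
        exact_mod_cast this
      have h5 : G y {i} = 0 := by
        rw [G]
        simp only [prod_singleton]
        exact (mul_eq_zero.1 h3).resolve_left h4
      rw [h5, mul_zero]
    · norm_num
  rw [h2] at h
  exact (mul_eq_zero.1 h).resolve_left h1

theorem E_three (o₁ o₂ : α) (h12 : o₁ ≠ o₂) (y : Matrix α α R) (hr1 : ∀ j, y o₁ j = 0)
    (hr2 : ∀ j, y o₂ j = 0) (hcol : ∀ j, ∑ i, y i j = 0) (hn : 5 ≤ Fintype.card α)
    (S : Finset α) (ho1 : o₁ ∉ S) (ho2 : o₂ ∉ S) (hS : S.card = 3) :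
    E o₁ o₂ y S = 6 * (Fintype.card α - 5).factorial * ∑ r, ∏ i ∈ S, y r i := by
  have h := E_eq o₁ o₂ h12 y hr1 hr2 S ho1 ho2
  obtain ⟨i, j, k, hij, hik, hjk, rfl⟩ := card_eq_three.1 hS
  have ht := triple (fun r => y r i) (fun r => y r j) (fun r => y r k) (hcol i) (hcol j) (hcol k)
    i j k hij hik hjk
  have hG : G y {i, j, k} = ∑ σ : Perm α, y (σ i) i * y (σ j) j * y (σ k) k := by
    rw [G]
    refine sum_congr rfl fun σ _ => ?_
    rw [prod_insert (by simp [hij, hik]), prod_insert (by simp [hjk]), prod_singleton, mul_assoc]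
  have hP : ∑ r, ∏ l ∈ ({i, j, k} : Finset α), y r l = ∑ r, y r i * y r j * y r k := by
    refine sum_congr rfl fun r _ => ?_
    rw [prod_insert (by simp [hij, hik]), prod_insert (by simp [hjk]), prod_singleton, mul_assoc]
  rw [hS, hG] at h
  rw [hP]
  push_cast at h
  obtain ⟨m, hm⟩ : ∃ m, Fintype.card α = m + 5 := ⟨Fintype.card α - 5, by omega⟩
  have hfac : ((Fintype.card α).factorial : R) = (m + 5) * (m + 4) * (m + 3) * (m + 2) * (m + 1) *
      m.factorial := by
    rw [hm]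
    simp only [Nat.factorial_succ]
    push_cast
    ring
  have hm5 : Fintype.card α - 5 = m := by omega
  have hc : (Fintype.card α : R) = m + 5 := by rw [hm]; push_cast; ring
  rw [hfac, hc] at ht
  rw [hc] at h
  rw [hm5]
  have n1 : ((m : R) + 5) ≠ 0 := by
    have : ((m + 5 : ℕ) : R) ≠ 0 := Nat.cast_ne_zero.2 (by omega)
    push_cast at this
    exact this
  have n2 : ((m : R) + 4) ≠ 0 := by
    have : ((m + 4 : ℕ) : R) ≠ 0 := Nat.cast_ne_zero.2 (by omega)
    push_cast at this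
    exact this
  have n3 : ((m : R) + 3) ≠ 0 := by
    have : ((m + 3 : ℕ) : R) ≠ 0 := Nat.cast_ne_zero.2 (by omega)
    push_cast at this
    exact this
  have n4 : ((m : R) + 2) ≠ 0 := by
    have : ((m + 2 : ℕ) : R) ≠ 0 := Nat.cast_ne_zero.2 (by omega)
    push_cast at this
    exact this
  have n5 : ((m : R) + 1) ≠ 0 := by
    have : ((m + 1 : ℕ) : R) ≠ 0 := Nat.cast_ne_zero.2 (by omega)
    push_cast at this
    exact this
  have hne : ((m : R) + 5) * (m + 4) * (m + 3) * (m + 2) * (m + 1) ≠ 0 :=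
    mul_ne_zero (mul_ne_zero (mul_ne_zero (mul_ne_zero n1 n2) n3) n4) n5
  refine mul_left_cancel₀ hne ?_
  linear_combination ((m : R) + 5) * (m + 4) * (m + 3) * h + 3 * ht

/-- The part of order at least four. -/
def tail (o₁ o₂ : α) (τ : R) (y : Matrix α α R) : R :=
  ∑ S ∈ ((univ.erase o₁).erase o₂).powerset with 4 ≤ S.card, τ ^ (S.card - 4) * E o₁ o₂ y S

/-- **The permanent near the base point.** -/
theorem perm_near (o₁ o₂ : α) (h12 : o₁ ≠ o₂) (y : Matrix α α R) (hr1 : ∀ j, y o₁ j = 0)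
    (hr2 : ∀ j, y o₂ j = 0) (hc1 : ∀ i, y i o₁ = 0) (hc2 : ∀ i, y i o₂ = 0)
    (hrow : ∀ i, ∑ j, y i j = 0) (hcol : ∀ j, ∑ i, y i j = 0) (hn : 5 ≤ Fintype.card α) (τ : R) :
    (base R o₁ o₂ + τ • y).permanent =
      τ ^ 3 * (2 * (Fintype.card α - 5).factorial * ∑ i, ∑ j, y i j ^ 3 + τ * tail o₁ o₂ τ y) := by
  set P := ((univ.erase o₁).erase o₂).powerset with hP
  have hmem : ∀ S ∈ P, o₁ ∉ S ∧ o₂ ∉ S := by
    intro S hS
    rw [hP, mem_powerset] at hS
    constructor
    · intro h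
      have := hS h
      rw [mem_erase, mem_erase] at this
      exact this.2.1 rfl
    · intro h
      have := hS h
      rw [mem_erase] at this
      exact this.1 rfl
  rw [expansion o₁ o₂ h12 y hc1 hc2 τ]
  rw [← sum_filter_add_sum_filter_not P (fun S => 4 ≤ S.card)]
  have e1 : ∑ S ∈ P with 4 ≤ S.card, τ ^ S.card * E o₁ o₂ y S = τ ^ 4 * tail o₁ o₂ τ y := by
    rw [tail, mul_sum]
    refine sum_congr rfl fun S hS => ?_
    rw [mem_filter] at hS
    rw [← mul_assoc, ← pow_add, Nat.add_sub_cancel' hS.2]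
  have e2 : ∑ S ∈ P with ¬ 4 ≤ S.card, τ ^ S.card * E o₁ o₂ y S =
      ∑ S ∈ powersetCard 3 ((univ.erase o₁).erase o₂), τ ^ 3 * E o₁ o₂ y S := by
    have hsub : powersetCard 3 ((univ.erase o₁).erase o₂) ⊆ P.filter (fun S => ¬ 4 ≤ S.card) := by
      intro S hS
      rw [mem_powersetCard] at hS
      rw [mem_filter, hP, mem_powerset]
      exact ⟨hS.1, by omega⟩
    rw [← sum_subset hsub]
    · refine sum_congr rfl fun S hS => ?_
      rw [mem_powersetCard] at hS
      rw [hS.2]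
    · intro S hS hS3
      rw [mem_filter] at hS
      have hle : S.card ≤ 2 := by
        by_contra hcon
        apply hS3
        rw [mem_powersetCard]
        refine ⟨?_, by omega⟩
        have := hS.1
        rwa [hP, mem_powerset] at this
      rw [E_small o₁ o₂ h12 y hr1 hr2 hcol hn S (hmem S hS.1).1 (hmem S hS.1).2 hle, mul_zero]
  have e3 : ∑ S ∈ powersetCard 3 ((univ.erase o₁).erase o₂), E o₁ o₂ y S =
      2 * (Fintype.card α - 5).factorial * ∑ i, ∑ j, y i j ^ 3 := by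
    have f1 : ∀ S ∈ powersetCard 3 ((univ.erase o₁).erase o₂), E o₁ o₂ y S =
        6 * (Fintype.card α - 5).factorial * ∑ r, ∏ i ∈ S, y r i := by
      intro S hS
      rw [mem_powersetCard] at hS
      have hSP : S ∈ P := by rw [hP, mem_powerset]; exact hS.1
      exact E_three o₁ o₂ h12 y hr1 hr2 hcol hn S (hmem S hSP).1 (hmem S hSP).2 hS.2
    rw [sum_congr rfl f1, ← mul_sum, sum_comm, mul_sum, mul_sum]
    refine sum_congr rfl fun r _ => ?_
    have h2 : o₂ ∈ univ.erase o₁ := mem_erase.2 ⟨h12.symm, mem_univ _⟩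
    have g1 : ∑ i ∈ (univ.erase o₁).erase o₂, y r i = 0 := by
      have := hrow r
      rw [← add_sum_erase univ _ (mem_univ o₁), ← add_sum_erase _ _ h2, hc1, hc2, zero_add,
        zero_add] at this
      exact this
    have g3 : ∑ i ∈ (univ.erase o₁).erase o₂, y r i ^ 3 = ∑ i, y r i ^ 3 := by
      rw [← add_sum_erase univ _ (mem_univ o₁), ← add_sum_erase _ _ h2, hc1, hc2]
      ring
    have hN := (newton (fun i => y r i) ((univ.erase o₁).erase o₂)).2.2
    rw [g1, g3] at hN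
    linear_combination ((Fintype.card α - 5).factorial : R) * hN
  rw [e1, e2, ← mul_sum, e3]
  ring

omit [IsDomain R] [CharZero R] in
theorem base_map {R' : Type*} [CommRing R'] (f : R →+* R') (o₁ o₂ : α) :
    (base R o₁ o₂).map f = base R' o₁ o₂ := by
  ext i j
  simp only [Matrix.map_apply, base, Matrix.of_apply, colA, colB]
  split_ifs <;> simp <;> exact map_ofNat f _

omit [IsDomain R] [CharZero R] in
theorem E_map {R' : Type*} [CommRing R'] (f : R →+* R') (o₁ o₂ : α) (y : Matrix α α R)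
    (S : Finset α) : f (E o₁ o₂ y S) = E o₁ o₂ (y.map f) S := by
  rw [E, E, map_sum]
  refine sum_congr rfl fun σ _ => ?_
  rw [map_mul, map_mul, map_prod]
  have e1 : f (colA R o₁ o₂ (σ o₁)) = colA R' o₁ o₂ (σ o₁) := by
    unfold colA
    split_ifs <;> simp <;> exact map_ofNat f _
  have e2 : f (colB R o₂ (σ o₂)) = colB R' o₂ (σ o₂) := by
    unfold colB
    split_ifs <;> simp <;> exact map_ofNat f _
  rw [e1, e2]
  rfl

omit [IsDomain R] [CharZero R] in
theorem tail_map {R' : Type*} [CommRing R'] (f : R →+* R') (o₁ o₂ : α) (τ : R) (y : Matrix α α R) :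
    f (tail o₁ o₂ τ y) = tail o₁ o₂ (f τ) (y.map f) := by
  rw [tail, tail, map_sum]
  refine sum_congr rfl fun S _ => ?_
  rw [map_mul, map_pow, E_map]

end

end Pool.Agent.L5helper62.DC
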